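import Mathlib
import Pool.Agent.L5helper86.RB.Base

/-!
# The residues at which `1 - b + b ^ 2 - … + b ^ (n - 1)` vanishes
-/

set_option autoImplicit false

open Finset

namespace Pool.Agent.L5helper86.RB

theorem geom_iff {n p : ℕ} (hn : n.Prime) [Fact p.Prime] (hnp : p ≠ n) (y : ZMod p) :
    ∑ i ∈ range n, y ^ i = 0 ↔ orderOf y = n := by
  have hp : p.Prime := Fact.out
  have hgeom := mul_geom_sum y n
  constructor
  · intro h
    have h1 : y ^ n = 1 := by
      rw [h, mul_zero] at hgeom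
      exact (sub_eq_zero.1 hgeom.symm)
    have h2 : y ≠ 1 := by
      rintro rfl
      simp only [one_pow, sum_const, card_range, nsmul_eq_mul, mul_one] at h
      rw [ZMod.natCast_eq_zero_iff] at h
      exact hnp ((Nat.prime_dvd_prime_iff_eq hp hn).1 h)
    have : Fact n.Prime := ⟨hn⟩
    exact orderOf_eq_prime h1 h2
  · intro h
    have h1 : y ^ n = 1 := by rw [← h]; exact pow_orderOf_eq_one y
    have h2 : y ≠ 1 := by
      rintro rfl
      rw [orderOf_one] at h
      exact hn.one_lt.ne h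
    rw [h1, sub_self] at hgeom
    rcases mul_eq_zero.1 hgeom with h3 | h3
    · exact absurd (sub_eq_zero.1 h3) h2
    · exact h3

theorem geom_self_iff {p : ℕ} [Fact p.Prime] (y : ZMod p) :
    ∑ i ∈ range p, y ^ i = 0 ↔ y = 1 := by
  have hgeom := mul_geom_sum y p
  constructor
  · intro h
    rw [h, mul_zero, ZMod.pow_card] at hgeom
    exact sub_eq_zero.1 hgeom.symm
  · rintro rfl
    simp

theorem card_rts_eq {n p : ℕ} (hp : p.Prime) [Fact p.Prime] :
    #(rts p n) = #(univ.filter fun y : ZMod p => ∑ i ∈ range n, y ^ i = 0) := by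
  have : NeZero p := ⟨hp.ne_zero⟩
  apply Finset.card_bij (s := rts p n) (fun (b : ℕ) (_ : b ∈ rts p n) => -(b : ZMod p))
  · intro b hb
    rw [rts, mem_filter] at hb
    rw [mem_filter]
    exact ⟨mem_univ _, hb.2⟩
  · intro b hb b' hb' h
    rw [rts, mem_filter, mem_range] at hb hb'
    have h1 : (b : ZMod p) = b' := neg_injective h
    have h2 := congrArg ZMod.val h1
    rwa [ZMod.val_natCast, ZMod.val_natCast, Nat.mod_eq_of_lt hb.1, Nat.mod_eq_of_lt hb'.1] at h2
  · intro y hy
    rw [mem_filter] at hy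
    refine ⟨(-y).val, ?_, ?_⟩
    · rw [rts, mem_filter, mem_range]
      refine ⟨ZMod.val_lt _, ?_⟩
      rw [qs, ZMod.natCast_zmod_val, neg_neg]
      exact hy.2
    · simp

theorem card_rts {n p : ℕ} (hn : n.Prime) (hn2 : n ≠ 2) (hp : p.Prime) :
    #(rts p n) = if p = n then 1 else if p % n = 1 then n - 1 else 0 := by
  have : Fact p.Prime := ⟨hp⟩
  rw [card_rts_eq hp]
  split_ifs with h1 h2
  · subst h1
    simp_rw [geom_self_iff]
    rw [Finset.filter_eq']
    simp
  · simp_rw [geom_iff hn h1]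
    have hdvd : n ∣ Fintype.card (ZMod p)ˣ := by
      rw [ZMod.card_units_eq_totient, Nat.totient_prime hp]
      exact (Nat.modEq_iff_dvd' hp.one_lt.le).1 (by
        rw [Nat.ModEq, h2, Nat.mod_eq_of_lt hn.one_lt])
    rw [← Nat.totient_prime hn, ← IsCyclic.card_orderOf_eq_totient hdvd]
    symm
    apply Finset.card_bij (fun (u : (ZMod p)ˣ) _ => (u : ZMod p))
    · intro u hu
      rw [mem_filter] at hu ⊢
      exact ⟨mem_univ _, by rw [orderOf_units]; exact hu.2⟩
    · intro u _ v _ h
      exact Units.ext h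
    · intro y hy
      rw [mem_filter] at hy
      have hy0 : y ≠ 0 := by
        rintro rfl
        have := hy.2
        have h3 : (0 : ZMod p) ^ n = 1 := by rw [← this]; exact pow_orderOf_eq_one _
        rw [zero_pow hn.ne_zero] at h3
        exact zero_ne_one h3
      refine ⟨Units.mk0 y hy0, ?_, rfl⟩
      rw [mem_filter]
      refine ⟨mem_univ _, ?_⟩
      rw [← orderOf_units]
      exact hy.2
  · simp_rw [geom_iff hn h1]
    rw [Finset.card_eq_zero, Finset.filter_eq_empty_iff]
    intro y _ hy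
    apply h2
    have hy0 : y ≠ 0 := by
      rintro rfl
      have h3 : (0 : ZMod p) ^ n = 1 := by rw [← hy]; exact pow_orderOf_eq_one _
      rw [zero_pow hn.ne_zero] at h3
      exact zero_ne_one h3
    have h4 : orderOf y ∣ p - 1 := orderOf_dvd_of_pow_eq_one (ZMod.pow_card_sub_one_eq_one hy0)
    rw [hy] at h4
    have h5 : p ≡ 1 [MOD n] := ((Nat.modEq_iff_dvd' hp.one_lt.le).2 h4).symm
    rw [Nat.ModEq, Nat.mod_eq_of_lt hn.one_lt] at h5
    exact h5

theorem rts_disj {n m p : ℕ} (hn : n.Prime) (hn2 : n ≠ 2) (hm : m.Prime) (hm2 : m ≠ 2) (hnm : n ≠ m) (hp : p.Prime) (b : ℕ) :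
    ¬ (qs p b n = 0 ∧ qs p b m = 0) := by
  have : Fact p.Prime := ⟨hp⟩
  rintro ⟨h1, h2⟩
  rw [qs] at h1 h2
  by_cases hpn : p = n
  · subst hpn
    rw [geom_self_iff] at h1
    rw [geom_iff hm hnm, h1, orderOf_one] at h2
    exact hm.one_lt.ne h2
  · rw [geom_iff hn hpn] at h1
    by_cases hpm : p = m
    · subst hpm
      rw [geom_self_iff] at h2
      rw [h2, orderOf_one] at h1
      exact hn.one_lt.ne h1
    · rw [geom_iff hm hpm, h1] at h2
      exact hnm h2

end Pool.Agent.L5helper86.RB
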