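import Mathlib
import Pool.Agent.L5helper86.RB.Base

/-!
# Sums over the odd primes from dyadic blocks
-/

set_option autoImplicit false

open Finset

namespace Pool.Agent.L5helper86.RB

/-- the block from `2 ^ j` to `2 ^ (j + 1)` -/
lemma op_two_pow_subset {j k x : ℕ} (hj : j < k) (hk : 2 ^ k ≤ x) :
    op (2 ^ j) ⊆ (range (x + 1)).filter fun n => n.Prime ∧ n ≠ 2 := by
  intro n hn
  rw [op, mem_filter, mem_Ioc] at hn
  rw [mem_filter, mem_range]
  refine ⟨?_, hn.2⟩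
  have h1 : 2 * 2 ^ j ≤ 2 ^ k := by
    rw [← pow_succ']
    exact Nat.pow_le_pow_right (by norm_num) hj
  omega

lemma op_disj {i j : ℕ} (h : i ≠ j) : Disjoint (op (2 ^ i)) (op (2 ^ j)) := by
  rw [Finset.disjoint_left]
  intro n hi hj
  rw [op, mem_filter, mem_Ioc] at hi hj
  rcases Nat.lt_or_gt_of_ne h with h1 | h1
  · have h2 : 2 * 2 ^ i ≤ 2 ^ j := by
      rw [← pow_succ']
      exact Nat.pow_le_pow_right (by norm_num) h1
    omega
  · have h2 : 2 * 2 ^ j ≤ 2 ^ i := by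
      rw [← pow_succ']
      exact Nat.pow_le_pow_right (by norm_num) h1
    omega

theorem dyadic_lower (f : ℕ → ℝ) (hf : ∀ n, 0 ≤ f n) (c : ℝ) (hc : 0 < c) (N0 : ℕ)
    (h : ∀ N : ℕ, N0 ≤ N → c ≤ ∑ n ∈ op N, f n) :
    ∃ c' : ℝ, 0 < c' ∧ ∃ x0 : ℕ, ∀ x : ℕ, x0 ≤ x →
      c' * Real.log x ≤ ∑ n ∈ (range (x+1)).filter (fun n => n.Prime ∧ n ≠ 2), f n := by
  refine ⟨c / 4, by positivity, 2 ^ (2 * N0 + 2), ?_⟩
  intro x hx
  have hx0 : x ≠ 0 := by
    have : 0 < 2 ^ (2 * N0 + 2) := by positivity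
    omega
  set k := Nat.log 2 x with hk
  have hk1 : 2 ^ k ≤ x := Nat.pow_log_le_self 2 hx0
  have hk2 : x < 2 ^ (k + 1) := Nat.lt_pow_succ_log_self (by norm_num) x
  have hkN : 2 * N0 + 2 ≤ k := by
    rw [hk]
    exact (Nat.le_log_iff_pow_le (by norm_num) hx0).2 hx
  have h1 : ∑ j ∈ Ico N0 k, ∑ n ∈ op (2 ^ j), f n ≤
      ∑ n ∈ (range (x+1)).filter (fun n => n.Prime ∧ n ≠ 2), f n := by
    rw [← Finset.sum_biUnion (fun i _ j _ hij => op_disj hij)]
    apply Finset.sum_le_sum_of_subset_of_nonneg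
    · intro n hn
      rw [mem_biUnion] at hn
      obtain ⟨j, hj, hn⟩ := hn
      rw [mem_Ico] at hj
      exact op_two_pow_subset hj.2 hk1 hn
    · intro n _ _
      exact hf n
  have h2 : ((k : ℝ) - N0) * c ≤ ∑ j ∈ Ico N0 k, ∑ n ∈ op (2 ^ j), f n := by
    have h3 : ∑ j ∈ Ico N0 k, c ≤ ∑ j ∈ Ico N0 k, ∑ n ∈ op (2 ^ j), f n := by
      apply Finset.sum_le_sum
      intro j hj
      rw [mem_Ico] at hj
      apply h
      exact hj.1.trans (Nat.lt_two_pow_self).le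
    rw [sum_const, Nat.card_Ico, nsmul_eq_mul, Nat.cast_sub (by omega)] at h3
    exact h3
  have h4 : Real.log x ≤ (k + 1 : ℝ) := by
    have h5 : Real.log x ≤ Real.log ((2 : ℝ) ^ (k + 1)) := by
      apply Real.log_le_log (by positivity)
      exact_mod_cast hk2.le
    rw [Real.log_pow] at h5
    have h6 : Real.log 2 ≤ 1 := by
      have := Real.log_two_lt_d9
      linarith
    push_cast at h5
    nlinarith
  have h7 : (2 * N0 + 2 : ℝ) ≤ k := by exact_mod_cast hkN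
  refine le_trans ?_ (h2.trans h1)
  nlinarith

lemma rpow_step (ε : ℝ) (hε : 0 < ε) (x : ℕ) :
    (x : ℝ) ^ ε + min ε 1 * ((x + 1 : ℕ) : ℝ) ^ (ε - 1) ≤ ((x + 1 : ℕ) : ℝ) ^ ε := by
  have hx : (0 : ℝ) < ((x + 1 : ℕ) : ℝ) := by positivity
  set N : ℝ := ((x + 1 : ℕ) : ℝ) with hN
  have hxN : (x : ℝ) = N * (1 - 1 / N) := by
    rw [mul_sub, mul_one, mul_one_div_cancel hx.ne', hN]
    push_cast
    ring
  have h1N : 1 ≤ N := by
    rw [hN]
    exact_mod_cast Nat.succ_le_succ (Nat.zero_le x)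
  have hs0 : 0 ≤ 1 - 1 / N := by
    rw [sub_nonneg, div_le_one hx]
    exact h1N
  have hs1 : 1 - 1 / N ≤ 1 := by
    have : 0 ≤ 1 / N := by positivity
    linarith
  have hb : (1 - 1 / N) ^ ε ≤ 1 - min ε 1 * (1 / N) := by
    rcases le_total ε 1 with h | h
    · rw [min_eq_left h]
      have := rpow_one_add_le_one_add_mul_self (s := -(1 / N)) (by linarith) hε.le h
      calc (1 - 1 / N) ^ ε = (1 + -(1 / N)) ^ ε := by rw [sub_eq_add_neg]
        _ ≤ 1 + ε * -(1 / N) := this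
        _ = 1 - ε * (1 / N) := by ring
    · rw [min_eq_right h, one_mul]
      rcases hs0.eq_or_lt with h0 | h0
      · rw [← h0, Real.zero_rpow hε.ne']
      · calc (1 - 1 / N) ^ ε ≤ (1 - 1 / N) ^ (1 : ℝ) := Real.rpow_le_rpow_of_exponent_ge h0 hs1 h
          _ = 1 - 1 / N := Real.rpow_one _
  have hpow : N ^ (ε - 1) = N ^ ε * (1 / N) := by
    rw [Real.rpow_sub hx, Real.rpow_one, mul_one_div]
  rw [hxN, Real.mul_rpow hx.le hs0, hpow]
  have hNe : 0 < N ^ ε := Real.rpow_pos_of_pos hx ε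
  nlinarith [mul_le_mul_of_nonneg_left hb hNe.le]

theorem dyadic_upper (f : ℕ → ℝ) (hf : ∀ n, 0 ≤ f n) (C ε : ℝ) (hC : 0 < C) (hε : 0 < ε)
    (h : ∀ n : ℕ, n.Prime → n ≠ 2 → f n ≤ C * (n : ℝ) ^ (ε - 1)) :
    ∃ C' : ℝ, 0 < C' ∧ ∀ x : ℕ, 1 ≤ x →
      ∑ n ∈ (range (x+1)).filter (fun n => n.Prime ∧ n ≠ 2), f n ≤ C' * (x : ℝ) ^ ε := by
  have hc : 0 < min ε 1 := lt_min hε one_pos
  refine ⟨C / min ε 1, by positivity, ?_⟩
  have key : ∀ x : ℕ, ∑ n ∈ (range (x+1)).filter (fun n => n.Prime ∧ n ≠ 2), f n ≤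
      C / min ε 1 * (x : ℝ) ^ ε := by
    intro x
    induction x with
    | zero =>
      have h0 : (range (0 + 1)).filter (fun n => n.Prime ∧ n ≠ 2) = ∅ := by
        decide
      rw [h0, sum_empty]
      positivity
    | succ x ih =>
      have hstep := rpow_step ε hε x
      have h2 : C / min ε 1 * (x : ℝ) ^ ε + C * ((x + 1 : ℕ) : ℝ) ^ (ε - 1) ≤
          C / min ε 1 * ((x + 1 : ℕ) : ℝ) ^ ε := by
        have h3 := mul_le_mul_of_nonneg_left hstep (by positivity : 0 ≤ C / min ε 1)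
        have h4 : C / min ε 1 * (min ε 1 * ((x + 1 : ℕ) : ℝ) ^ (ε - 1)) =
            C * ((x + 1 : ℕ) : ℝ) ^ (ε - 1) := by
          field_simp
        rw [mul_add, h4] at h3
        exact h3
      rw [Finset.range_add_one, Finset.filter_insert]
      split_ifs with hp
      · rw [Finset.sum_insert (by simp)]
        have h5 := h (x + 1) hp.1 hp.2
        linarith
      · have h5 : 0 ≤ C * ((x + 1 : ℕ) : ℝ) ^ (ε - 1) := by positivity
        linarith
  exact fun x _ => key x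

end Pool.Agent.L5helper86.RB
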