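import Mathlib
import Pool.Agent.L5helper66.RB.C1
import Pool.Agent.L5helper66.RB.F3

/-!
# Upper bounds: the probability, the number of the primes in a dyadic block, dyadic sums
-/

set_option autoImplicit false

open Finset

namespace Pool.Agent.L5helper86.RB

theorem Pn_le_exp {n : ℕ} (hn : n.Prime) (hn2 : n ≠ 2) (z : ℝ) :
    Pn z n ≤ Real.exp (-(∑ p ∈ (pz z).filter (fun p => p % n = 1), ((n : ℝ) - 1) / p)) := by
  have hn1 : 1 < n := hn.one_lt
  have h1 : Pn z n ≤ ∏ p ∈ pz z, Real.exp (-((#(rts p n) : ℝ) / p)) := by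
    unfold Pn
    apply Finset.prod_le_prod
    · intro p hp
      have hp' := (mem_pz.1 hp).1
      have h2 : (#(rts p n) : ℝ) ≤ p := by
        have : #(rts p n) ≤ p := by
          unfold rts
          exact (card_filter_le _ _).trans (by rw [card_range])
        exact_mod_cast this
      have h3 : (0 : ℝ) < p := by exact_mod_cast hp'.pos
      rw [sub_nonneg, div_le_one h3]
      exact h2
    · intro p _
      have := Real.add_one_le_exp (-((#(rts p n) : ℝ) / p))
      linarith
  refine h1.trans ?_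
  rw [← Real.exp_sum, Real.exp_le_exp, ← Finset.sum_neg_distrib]
  rw [Finset.sum_filter]
  apply Finset.sum_le_sum
  intro p hp
  have hp' := (mem_pz.1 hp).1
  have h3 : (0 : ℝ) < p := by exact_mod_cast hp'.pos
  split_ifs with h
  · have hne : p ≠ n := by
      rintro rfl
      rw [Nat.mod_self] at h
      exact absurd h (by norm_num)
    rw [card_rts hn hn2 hp', if_neg hne, if_pos h, Nat.cast_sub hn1.le]
    simp
  · have : (0 : ℝ) ≤ (#(rts p n) : ℝ) / p := by positivity
    linarith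

theorem op_upper : ∃ C : ℝ, 0 < C ∧ ∀ N : ℕ, 2 ≤ N → (#(op N) : ℝ) ≤ C * (N / Real.log N) := by
  refine ⟨2 * Real.log 4, by positivity, fun N hN => ?_⟩
  have hN2 : (2 : ℝ) ≤ N := by exact_mod_cast hN
  have hlog : 0 < Real.log N := Real.log_pos (by linarith)
  have h1 : (#(op N) : ℝ) * Real.log N ≤ Chebyshev.theta (2 * N : ℕ) := by
    rw [Chebyshev.theta, Nat.floor_natCast, ← nsmul_eq_mul, ← Finset.sum_const]
    calc ∑ p ∈ op N, Real.log N ≤ ∑ p ∈ op N, Real.log p := by
          apply Finset.sum_le_sum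
          intro p hp
          rw [op, mem_filter, mem_Ioc] at hp
          apply Real.log_le_log (by linarith)
          exact_mod_cast hp.1.1.le
      _ ≤ _ := by
          apply Finset.sum_le_sum_of_subset_of_nonneg
          · intro p hp
            rw [op, mem_filter, mem_Ioc] at hp
            rw [mem_filter, mem_Ioc]
            exact ⟨⟨by omega, hp.1.2⟩, hp.2.1⟩
          · intro p hp _
            rw [mem_filter] at hp
            exact Real.log_nonneg (by exact_mod_cast hp.2.one_lt.le)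
  have h2 := Chebyshev.theta_le_log4_mul_x (x := ((2 * N : ℕ) : ℝ)) (by positivity)
  have h3 : (#(op N) : ℝ) * Real.log N ≤ 2 * Real.log 4 * N := by
    refine h1.trans (h2.trans (le_of_eq ?_))
    push_cast
    ring
  rw [← mul_div_assoc, le_div_iff₀ hlog]
  exact h3

theorem dyadic_const_upper (f : ℕ → ℝ) (hf : ∀ n, 0 ≤ f n) (C : ℝ) (hC : 0 < C) (N0 : ℕ)
    (h : ∀ N : ℕ, N0 ≤ N → ∑ n ∈ op N, f n ≤ C) :
    ∃ C' : ℝ, 0 < C' ∧ ∃ x0 : ℕ, ∀ x : ℕ, x0 ≤ x →
      ∑ n ∈ (range (x + 1)).filter (fun n => n.Prime ∧ n ≠ 2), f n ≤ C' * Real.log x := by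
  set K : ℝ := ∑ j ∈ range N0, ∑ n ∈ op (2 ^ j), f n with hK
  have hK0 : 0 ≤ K := Finset.sum_nonneg fun j _ => Finset.sum_nonneg fun n _ => hf n
  refine ⟨K + 4 * C, by positivity, 3, ?_⟩
  intro x hx
  have hx0 : x ≠ 0 := by omega
  set k := Nat.log 2 x with hk
  have hk1 : 2 ^ k ≤ x := Nat.pow_log_le_self 2 hx0
  have hk2 : x < 2 ^ (k + 1) := Nat.lt_pow_succ_log_self (by norm_num) x
  have hlog1 : 1 ≤ Real.log x := by
    rw [Real.le_log_iff_exp_le (by positivity)]
    have := Real.exp_one_lt_d9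
    have h3 : (3 : ℝ) ≤ x := by exact_mod_cast hx
    linarith
  have hklog : (k : ℝ) ≤ 2 * Real.log x := by
    have h5 : Real.log ((2 : ℝ) ^ k) ≤ Real.log x := by
      apply Real.log_le_log (by positivity)
      exact_mod_cast hk1
    rw [Real.log_pow] at h5
    have h6 := Real.log_two_gt_d9
    nlinarith [Nat.cast_nonneg (α := ℝ) k]
  have hsub : (range (x + 1)).filter (fun n => n.Prime ∧ n ≠ 2) ⊆
      (range (k + 1)).biUnion fun j => op (2 ^ j) := by
    intro n hn
    rw [mem_filter, mem_range] at hn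
    obtain ⟨hnx, hnp, hn2⟩ := hn
    have hn3 : 2 < n := by
      have := hnp.two_le
      omega
    -- `2 ^ j < n ≤ 2 ^ (j + 1)` for `j = log (n - 1)`
    have hn1 : n - 1 ≠ 0 := by omega
    rw [mem_biUnion]
    refine ⟨Nat.log 2 (n - 1), ?_, ?_⟩
    · rw [mem_range]
      have : Nat.log 2 (n - 1) ≤ k := Nat.log_mono_right (by omega)
      omega
    · rw [op, mem_filter, mem_Ioc]
      have e1 : 2 ^ Nat.log 2 (n - 1) ≤ n - 1 := Nat.pow_log_le_self 2 hn1
      have e2 : n - 1 < 2 ^ (Nat.log 2 (n - 1) + 1) := Nat.lt_pow_succ_log_self (by norm_num) _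
      rw [pow_succ] at e2
      exact ⟨⟨by omega, by omega⟩, hnp, hn2⟩
  have h1 : ∑ n ∈ (range (x + 1)).filter (fun n => n.Prime ∧ n ≠ 2), f n ≤
      ∑ j ∈ range (k + 1), ∑ n ∈ op (2 ^ j), f n := by
    refine (Finset.sum_le_sum_of_subset_of_nonneg hsub fun n _ _ => hf n).trans ?_
    rw [Finset.sum_biUnion (fun i _ j _ hij => op_disj hij)]
  have h2 : ∀ j ∈ range (k + 1), ∑ n ∈ op (2 ^ j), f n ≤
      (if j < N0 then ∑ n ∈ op (2 ^ j), f n else 0) + C := by
    intro j _
    split_ifs with hj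
    · linarith
    · have := h (2 ^ j) ((not_lt.1 hj).trans (Nat.lt_two_pow_self).le)
      linarith
  have h3 : ∑ j ∈ range (k + 1), (if j < N0 then ∑ n ∈ op (2 ^ j), f n else 0) ≤ K := by
    rw [← Finset.sum_filter, hK]
    apply Finset.sum_le_sum_of_subset_of_nonneg
    · intro j hj
      rw [mem_filter] at hj
      exact mem_range.2 hj.2
    · intro j _ _
      exact Finset.sum_nonneg fun n _ => hf n
  have h4 : ∑ j ∈ range (k + 1), ∑ n ∈ op (2 ^ j), f n ≤ K + ((k : ℝ) + 1) * C := by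
    refine (Finset.sum_le_sum h2).trans ?_
    rw [Finset.sum_add_distrib, sum_const, card_range, nsmul_eq_mul]
    push_cast
    linarith
  refine (h1.trans h4).trans ?_
  have h5 : K * 1 ≤ K * Real.log x := mul_le_mul_of_nonneg_left hlog1 hK0
  have h6 : ((k : ℝ) + 1) * C ≤ (4 * Real.log x) * C := by
    apply mul_le_mul_of_nonneg_right _ hC.le
    linarith
  nlinarith

end Pool.Agent.L5helper86.RB
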