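import Pool.Agent.L5helper86.RB.Prob

/-!
# Negative orthant dependence: each prime kills at most one index
-/

set_option autoImplicit false

open Finset MeasureTheory ProbabilityTheory

namespace Pool.Agent.L5helper86.RB

lemma one_sub_sum_le {ι : Type*} (T : Finset ι) (u : ι → ℝ) (h0 : ∀ n ∈ T, 0 ≤ u n)
    (h1 : ∀ n ∈ T, u n ≤ 1) : 1 - ∑ n ∈ T, u n ≤ ∏ n ∈ T, (1 - u n) := by
  classical
  induction T using Finset.induction_on with
  | empty => simp
  | insert a T ha ih =>
    have ih' := ih (fun n hn => h0 n (mem_insert_of_mem hn)) fun n hn => h1 n (mem_insert_of_mem hn)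
    rw [sum_insert ha, prod_insert ha]
    have h2 : 0 ≤ u a := h0 a (mem_insert_self _ _)
    have h3 : u a ≤ 1 := h1 a (mem_insert_self _ _)
    have h4 : ∏ n ∈ T, (1 - u n) ≤ 1 := by
      apply prod_le_one
      · intro n hn
        have := h1 n (mem_insert_of_mem hn)
        linarith
      · intro n hn
        have := h0 n (mem_insert_of_mem hn)
        linarith
    nlinarith

theorem neg_orth1 {Ω : Type} [MeasurableSpace Ω] {P : Measure Ω} {X : ℕ → Ω → ℕ} (h : UL.Sys P X)
    (s : Finset ℕ) (hs : ∀ p ∈ s, p.Prime) (R : ℕ → ℕ → Finset ℕ)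
    (hR : ∀ p ∈ s, ∀ n, R p n ⊆ range p)
    (hd : ∀ p ∈ s, ∀ n m, n ≠ m → Disjoint (R p n) (R p m)) (T : Finset ℕ) :
    P.real (⋂ n ∈ T, {ω | ∀ p ∈ s, X p ω ∉ R p n}) ≤
      ∏ n ∈ T, P.real {ω | ∀ p ∈ s, X p ω ∉ R p n} := by
  classical
  have e : (⋂ n ∈ T, {ω | ∀ p ∈ s, X p ω ∉ R p n}) =
      {ω | ∀ p ∈ s, X p ω ∉ T.biUnion (R p)} := by
    ext ω
    simp only [Set.mem_iInter, Set.mem_setOf_eq, mem_biUnion, not_exists, not_and]
    exact ⟨fun h p hp n hn => h n hn p hp, fun h n hn p hp => h p hp n hn⟩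
  have hsub : ∀ p ∈ s, T.biUnion (R p) ⊆ range p := fun p hp =>
    biUnion_subset.2 fun n _ => hR p hp n
  rw [e, avoid_prob h (fun p => T.biUnion (R p)) s hs hsub]
  have e2 : ∀ n ∈ T, P.real {ω | ∀ p ∈ s, X p ω ∉ R p n} = ∏ p ∈ s, (1 - (#(R p n) : ℝ) / p) :=
    fun n _ => avoid_prob h (fun p => R p n) s hs fun p hp => hR p hp n
  rw [prod_congr rfl e2, prod_comm]
  refine prod_le_prod (fun p hp => ?_) fun p hp => ?_
  · have hp0 : (0 : ℝ) < p := by exact_mod_cast (hs p hp).pos
    have h3 : #(T.biUnion (R p)) ≤ p := by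
      have := card_le_card (hsub p hp)
      rwa [card_range] at this
    have h4 : (#(T.biUnion (R p)) : ℝ) / p ≤ 1 := by
      rw [div_le_one hp0]
      exact_mod_cast h3
    linarith
  · have hp0 : (0 : ℝ) < p := by exact_mod_cast (hs p hp).pos
    rw [card_biUnion fun n _ m _ hnm => hd p hp n m hnm]
    push_cast
    rw [sum_div]
    apply one_sub_sum_le
    · intro n _
      positivity
    · intro n _
      have h3 : #(R p n) ≤ p := by
        have := card_le_card (hR p hp n)
        rwa [card_range] at this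
      rw [div_le_one hp0]
      exact_mod_cast h3

end Pool.Agent.L5helper86.RB
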